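import Mathlib

set_option autoImplicit false
set_option maxHeartbeats 400000

namespace Pool.Agent.Results.MP_529953_al.CharP

open scoped Pointwise ENNReal symmDiff Topology
open MeasureTheory Filter

/-- A discrete group is amenable if it has a left-invariant finitely additive probability measure
defined on all subsets. -/
def IsAmenable (G : Type) [Group G] : Prop :=
  ∃ m : Set G → ℝ≥0∞, m Set.univ = 1 ∧ (∀ s t, Disjoint s t → m (s ∪ t) = m s + m t) ∧
    ∀ (g : G) (s : Set G), m (g • s) = m s

lemma slab {X : Type} [Group X] [MeasurableSpace X] [DiscreteMeasurableSpace X]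
    (τ : X) (F : Set X) (c : X → ℤ) (n : ℕ) (h1 : ∀ x, c (τ * x) = c x + 1)
    (h2 : ∀ x ∈ F, 0 ≤ c x ∧ c x ≤ n) (h3 : ∀ x, 0 ≤ c x → c x < n → (τ * x ∈ F ↔ x ∈ F)) :
    Measure.count ((τ • F) ∆ F) / Measure.count F ≤ 2 / (n + 1) := by
  obtain ⟨S, hS⟩ : ∃ S : ℕ → Set X, S = fun k : ℕ => {x ∈ F | c x = k} := ⟨_, rfl⟩
  have h4 : ∀ k ≤ n, Measure.count (S k) = Measure.count (S 0) := by
    intro k
    induction k with
    | zero => simp
    | succ k ih =>
      intro hk
      rw [← ih (by omega), ← measure_smul Measure.count τ (S k)]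
      congr 1
      ext x
      obtain ⟨y, rfl⟩ : ∃ y, τ * y = x := (Group.mulLeft_bijective τ).2 x
      rw [← smul_eq_mul, Set.smul_mem_smul_set_iff, smul_eq_mul]
      simp only [hS, Set.mem_ofPred_eq, h1]
      push_cast
      constructor
      · rintro ⟨h5, h6⟩
        exact ⟨(h3 y (by omega) (by omega)).mp h5, by omega⟩
      · rintro ⟨h5, h6⟩
        exact ⟨(h3 y (by omega) (by omega)).mpr h5, by omega⟩
  have h5 : (n + 1) * Measure.count (S 0) ≤ Measure.count F := by
    calc (n + 1) * Measure.count (S 0) = ∑ k ∈ Finset.range (n + 1), Measure.count (S k) := by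
          rw [Finset.sum_congr rfl fun k hk => h4 k (by simpa [Nat.lt_succ_iff] using hk)]
          simp
      _ = Measure.count (⋃ k ∈ Finset.range (n + 1), S k) := by
          refine (measure_biUnion_finset (fun k _ l _ hkl => ?_) fun _ _ => .of_discrete).symm
          refine Set.disjoint_left.mpr fun x h6 h7 => hkl ?_
          simp only [hS, Set.mem_ofPred_eq] at h6 h7
          omega
      _ ≤ _ := measure_mono (by simp only [Set.iUnion_subset_iff, hS]; exact fun _ _ x h => h.1)
  have h6 : Measure.count ((τ • F) ∆ F) ≤ 2 * Measure.count (S 0) := by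
    calc Measure.count ((τ • F) ∆ F) ≤ Measure.count (τ • S n ∪ S 0) := by
          refine measure_mono fun x hx => ?_
          obtain ⟨y, rfl⟩ : ∃ y, τ * y = x := (Group.mulLeft_bijective τ).2 x
          simp only [Set.mem_symmDiff, Set.mem_union] at hx ⊢
          rw [← smul_eq_mul, Set.smul_mem_smul_set_iff, smul_eq_mul] at hx ⊢
          simp only [hS, Set.mem_ofPred_eq, h1]
          rcases hx with ⟨h7, h8⟩ | ⟨h7, h8⟩
          · have := h2 y h7
            refine Or.inl ⟨h7, ?_⟩
            by_contra h9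
            exact h8 ((h3 y (by omega) (by omega)).mpr h7)
          · have := h2 _ h7
            rw [h1] at this
            refine Or.inr ⟨h7, ?_⟩
            by_contra h9
            exact h8 ((h3 y (by omega) (by omega)).mp h7)
      _ ≤ _ := by
          refine (measure_union_le _ _).trans ?_
          rw [measure_smul, h4 n le_rfl, two_mul]
  refine ENNReal.div_le_of_le_mul (h6.trans ?_)
  calc 2 * Measure.count (S 0) = 2 / (n + 1) * ((n + 1) * Measure.count (S 0)) := by
        rw [← mul_assoc, ENNReal.div_mul_cancel (by simp) (by simp)]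
    _ ≤ _ := by gcongr

abbrev W (p : ℕ) : Type := Multiplicative ℤ ≀ᵣ Multiplicative (ZMod p)

def aa (p : ℕ) (i : ℕ) : ℕ → W p := Pi.mulSingle i ⟨1, Multiplicative.ofAdd 1⟩
def tt (p : ℕ) (i : ℕ) : ℕ → W p := Pi.mulSingle i ⟨Pi.mulSingle 1 (Multiplicative.ofAdd 1), 1⟩

def GG (p : ℕ) : Subgroup (ℕ → W p) := Subgroup.closure (Set.range (aa p) ∪ Set.range (tt p))

def FF (p : ℕ) (n : ℕ) : Set (ℕ → W p) :=
  {x | ∀ j, (∀ q, 0 ≤ ((x j).left q).toAdd ∧ ((x j).left q).toAdd ≤ n) ∧ (n < j → x j = 1)}

lemma FF_fin (p : ℕ) [Fact p.Prime] (n : ℕ) : (FF p n).Finite := by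
  have h1 : {w : W p | ∀ q, 0 ≤ (w.left q).toAdd ∧ (w.left q).toAdd ≤ n}.Finite := by
    refine Set.Finite.of_finite_image (f := fun w => (fun q => (w.left q).toAdd, w.right))
      (((Set.Finite.pi' fun _ => Set.finite_Icc (0 : ℤ) n).prod Set.finite_univ).subset ?_) ?_
    · rintro _ ⟨w, hw, rfl⟩
      exact ⟨hw, trivial⟩
    · intro v _ w _ h
      ext1
      · exact congrArg Prod.fst h
      · exact congrArg Prod.snd h
  refine Set.Finite.of_finite_image (f := fun x (j : Fin (n + 1)) => x j)
    ((Set.Finite.pi' fun _ => h1).subset ?_) ?_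
  · rintro _ ⟨x, hx, rfl⟩ j
    exact (hx j).1
  · intro x hx y hy h
    funext j
    by_cases hj : n < j
    · rw [(hx j).2 hj, (hy j).2 hj]
    · exact congrFun h ⟨j, by omega⟩

lemma amen (p : ℕ) [Fact p.Prime] : IsAmenable (GG p) := by
  let : MeasurableSpace (ℕ → W p) := ⊤
  have : DiscreteMeasurableSpace (ℕ → W p) := ⟨fun _ => trivial⟩
  have : SMulInvariantMeasure (GG p) (ℕ → W p) Measure.count :=
    ⟨fun g s _ => measure_preimage_smul Measure.count g.1 s⟩
  have hF : IsFoelner (GG p) Measure.count atTop (FF p) := by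
    refine ⟨.of_forall fun _ => .of_discrete, .of_forall fun n => ?_, .of_forall fun n => ?_, ?_⟩
    · exact Measure.count_ne_zero ⟨1, fun j => by simp⟩
    · exact (Measure.count_apply_lt_top.mpr (FF_fin p n)).ne
    · rintro ⟨g, hg⟩
      show Tendsto (fun n => Measure.count ((g • FF p n) ∆ FF p n) / Measure.count (FF p n)) _ _
      induction hg using Subgroup.closure_induction with
      | mem g hg =>
        rcases hg with ⟨i, rfl⟩ | ⟨i, rfl⟩
        · refine tendsto_const_nhds.congr' ?_
          filter_upwards [eventually_ge_atTop i] with n hn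
          have : aa p i • FF p n = FF p n := by
            ext x
            obtain ⟨y, rfl⟩ : ∃ y, aa p i * y = x := (Group.mulLeft_bijective (aa p i)).2 x
            rw [← smul_eq_mul, Set.smul_mem_smul_set_iff, smul_eq_mul]
            refine forall_congr' fun j => ?_
            by_cases hj : j = i
            · subst hj
              simp only [aa, Pi.mul_apply, Pi.mulSingle_eq_same, RegularWreathProduct.mul_left,
                Pi.one_apply, one_mul, hn.not_gt, false_imp_iff, and_true]
              exact (Equiv.mulLeft (Multiplicative.ofAdd (1 : ZMod p))⁻¹).forall_congr_right.symm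
            · simp [aa, hj]
          simp [this]
        · refine tendsto_of_tendsto_of_tendsto_of_le_of_le' tendsto_const_nhds
            (h := fun n : ℕ => 2 / ((n : ℝ≥0∞) + 1)) ?_ (.of_forall fun _ => zero_le) ?_
          · have := ENNReal.Tendsto.const_div (a := 2) (b := ⊤) (m := fun n : ℕ => (n : ℝ≥0∞) + 1)
              (f := atTop) (by simpa using ENNReal.tendsto_nat_nhds_top.add_const 1) (by simp)
            simpa using this
          filter_upwards [eventually_ge_atTop i] with n hn
          refine slab _ _ (fun x => ((x i).left 1).toAdd) n (fun x => ?_) (fun x hx => (hx i).1 1)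
            fun x h1 h2 => forall_congr' fun j => ?_
          · simp [tt, add_comm]
          · by_cases hj : j = i
            · subst hj
              simp only [tt, Pi.mul_apply, Pi.mulSingle_eq_same, RegularWreathProduct.mul_left,
                inv_one, one_mul, hn.not_gt, false_imp_iff, and_true]
              refine forall_congr' fun q => ?_
              by_cases hq : q = 1
              · subst hq
                simp only [Pi.mulSingle_eq_same, toAdd_mul, toAdd_ofAdd]
                omega
              · simp [hq]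
            · simp [tt, hj]
      | one => simp
      | mul g h _ _ h1 h2 =>
        refine tendsto_of_tendsto_of_tendsto_of_le_of_le tendsto_const_nhds
          (by simpa using h2.add h1) (fun _ => zero_le) fun n => ?_
        rw [← ENNReal.add_div]
        refine ENNReal.div_le_div_right ((measure_symmDiff_le _ (g • FF p n) _).trans ?_) _
        rw [mul_smul, ← Set.smul_set_symmDiff, measure_smul]
      | inv g _ h1 =>
        refine h1.congr fun n => ?_
        rw [← measure_smul Measure.count g ((g⁻¹ • FF p n) ∆ FF p n), Set.smul_set_symmDiff,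
          smul_inv_smul, symmDiff_comm]
  obtain ⟨m, h1, h2, h3⟩ := hF.amenable
  have h4 : ∀ x : ℕ → W p,
      x * (Quotient.out (Quotient.mk (QuotientGroup.rightRel (GG p)) x))⁻¹ ∈ GG p := fun x =>
    QuotientGroup.rightRel_apply.mp (Quotient.mk_out (s := QuotientGroup.rightRel (GG p)) x)
  refine ⟨fun s => m {x | ⟨_, h4 x⟩ ∈ s}, by simpa using h1, fun s t h => ?_, fun g s => ?_⟩
  · exact h2 _ _ .of_discrete (h.preimage fun x => ⟨_, h4 x⟩)
  · refine Eq.trans (congrArg m ?_) (h3 g _)
    ext x
    simp only [Set.mem_smul_set_iff_inv_smul_mem, Set.mem_ofPred_eq]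
    have : Quotient.mk (QuotientGroup.rightRel (GG p)) (g⁻¹ • x) =
        Quotient.mk (QuotientGroup.rightRel (GG p)) x :=
      Quotient.sound (QuotientGroup.rightRel_apply.mpr (by simp [Subgroup.smul_def]))
    refine iff_of_eq (congrArg (· ∈ s) (Subtype.ext ?_))
    simp only [this]
    simp [Subgroup.smul_def, mul_assoc]

lemma pprime (p : ℕ) [Fact p.Prime] (F : Subgroup (GG p)) [Finite F] (h : ¬ p ∣ Nat.card F) :
    F = ⊥ := by
  refine (Subgroup.eq_bot_iff_forall _).mpr fun g hg => Subtype.ext (funext fun j => ?_)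
  have h1 : (g.1 j) ^ Nat.card F = 1 := by
    exact congrArg (fun z : F => z.1.1 j) (pow_card_eq_one' (x := (⟨g, hg⟩ : F)))
  have h2 : (g.1 j).right = 1 := by
    have h3 := congrArg RegularWreathProduct.rightHom h1
    rw [map_pow, map_one] at h3
    have h4 := congrArg Multiplicative.toAdd h3
    rw [toAdd_pow, toAdd_one, nsmul_eq_mul, mul_eq_zero, ZMod.natCast_eq_zero_iff] at h4
    exact h4.resolve_left h
  have h3 : ∀ n : ℕ, ((g.1 j) ^ n).left = (g.1 j).left ^ n := by
    intro n
    induction n with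
    | zero => simp
    | succ n ih => rw [pow_succ', pow_succ', RegularWreathProduct.mul_left, ih, h2]; ext; simp
  have h4 := h3 (Nat.card F)
  rw [h1] at h4
  ext1
  · exact (pow_eq_one_iff_left Nat.card_pos.ne').mp h4.symm
  · exact h2

def A (p : ℕ) (i : ℕ) : GG p := ⟨aa p i, Subgroup.subset_closure (Or.inl ⟨i, rfl⟩)⟩
def T (p : ℕ) (i : ℕ) : GG p := ⟨tt p i, Subgroup.subset_closure (Or.inr ⟨i, rfl⟩)⟩

def Fx {k G : Type} [Field k] [Group G] (S : Set G) :
    Submodule (MonoidAlgebra k G)ᵐᵒᵖ (MonoidAlgebra k G) where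
  carrier := {f | ∀ g ∈ S, MonoidAlgebra.single g 1 * f = f}
  add_mem' h1 h2 g hg := by rw [mul_add, h1 g hg, h2 g hg]
  zero_mem' g _ := mul_zero _
  smul_mem' c f h g hg := by rw [MulOpposite.smul_eq_mul_unop, ← mul_assoc, h g hg]

lemma fx_zero {k G : Type} [Field k] [Group G] (s : G) (hs : ¬ IsOfFinOrder s)
    (f : MonoidAlgebra k G) (h : MonoidAlgebra.single s 1 * f = f) : f = 0 := by
  by_contra h0
  obtain ⟨g, hg⟩ : ∃ g, f.coeff g ≠ 0 := by
    by_contra h1
    push Not at h1
    exact h0 (by ext g; simp [h1])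
  have h1 : ∀ n : ℕ, f.coeff (s ^ n * g) ≠ 0 := by
    intro n
    induction n with
    | zero => simpa using hg
    | succ n ih =>
      rw [← h, MonoidAlgebra.coeff_single_mul_apply, pow_succ', mul_assoc, inv_mul_cancel_left,
        one_mul]
      exact ih
  refine Set.infinite_of_injective_forall_mem (f := fun n : ℕ => s ^ n * g) (s := f.coeff.support)
    (fun a b hab => injective_pow_iff_not_isOfFinOrder.mpr hs (mul_right_cancel hab))
    (fun n => by simpa using h1 n) (Finset.finite_toSet _)

lemma fx_ne {k G : Type} [Field k] [Group G] (H : Subgroup G) [Finite H] :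
    ∃ f : MonoidAlgebra k G, f ≠ 0 ∧ ∀ g ∈ H, MonoidAlgebra.single g 1 * f = f := by
  classical
  have := Fintype.ofFinite H
  refine ⟨∑ h : H, MonoidAlgebra.single h.1 1, fun h0 => ?_, fun g hg => ?_⟩
  · have h1 := congrArg (fun f : MonoidAlgebra k G => f.coeff 1) h0
    simp [Finsupp.single_apply, Finsupp.finsetSum_apply] at h1
  · rw [Finset.mul_sum]
    exact Fintype.sum_equiv (Equiv.mulLeft ⟨g, hg⟩) _ _ fun h => by
      simp [MonoidAlgebra.single_mul_single]

lemma inf_ord (p : ℕ) [Fact p.Prime] (i : ℕ) :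
    ¬ IsOfFinOrder (T p i * A p i * (T p i)⁻¹ * (A p i)⁻¹) := by
  rw [isOfFinOrder_iff_pow_eq_one]
  rintro ⟨n, hn, h⟩
  have h1 : ∀ n : ℕ, ((((T p i * A p i * (T p i)⁻¹ * (A p i)⁻¹) ^ n).1 i).left 1).toAdd = n := by
    intro n
    induction n with
    | zero => simp
    | succ n ih =>
      rw [pow_succ', Subgroup.coe_mul, Pi.mul_apply, RegularWreathProduct.mul_left, Pi.mul_apply]
      have h2 : ((T p i * A p i * (T p i)⁻¹ * (A p i)⁻¹).1 i).right = 1 := by simp [T, A, tt, aa]
      have h3 : (((T p i * A p i * (T p i)⁻¹ * (A p i)⁻¹).1 i).left 1).toAdd = 1 := by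
        simp [T, A, tt, aa]
      rw [h2, inv_one, one_mul, toAdd_mul, ih, h3]
      push_cast; ring
  have := h1 n
  rw [h] at this
  simp at this
  omega

lemma fin_cl (p : ℕ) [Fact p.Prime] (m : ℕ) :
    Finite (Subgroup.closure {g | ∃ i ≤ m, g = A p i}) := by
  refine Set.Finite.to_subtype (Set.Finite.of_finite_image (f := Subtype.val)
    ((FF_fin p m).subset ?_) Subtype.val_injective.injOn)
  rintro _ ⟨g, hg, rfl⟩
  suffices h : ∀ j, (g.1 j).left = 1 ∧ (m < j → g.1 j = 1) from
    fun j => ⟨fun q => by simp [(h j).1], (h j).2⟩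
  induction hg using Subgroup.closure_induction with
  | mem g hg =>
    obtain ⟨i, hi, rfl⟩ := hg
    intro j
    by_cases hj : j = i
    · subst hj; simp [A, aa, hi]
    · simp [A, aa, hj]
  | one => simp
  | mul g h _ _ h1 h2 =>
    exact fun j => ⟨by ext; simp [(h1 j).1, (h2 j).1], fun hj => by simp [(h1 j).2 hj, (h2 j).2 hj]⟩
  | inv g _ h1 => exact fun j => ⟨by ext; simp [(h1 j).1], fun hj => by simp [(h1 j).2 hj]⟩

theorem result (p : ℕ) (hp : p.Prime) : ∃ (G : Type) (_ : Group G), IsAmenable G ∧
    (∀ F : Subgroup G, Finite F → ¬ p ∣ Nat.card F → F = ⊥) ∧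
    ∀ (k : Type) [Field k], ∃ I : ℕ → Submodule (MonoidAlgebra k G)ᵐᵒᵖ (MonoidAlgebra k G),
      (∀ n, I n ≠ ⊥) ∧ iSupIndep I := by
  have : Fact p.Prime := ⟨hp⟩
  refine ⟨GG p, inferInstance, amen p, fun F _ h => pprime p F h, fun k _ =>
    ⟨fun m => Fx {g | g = T p m * A p m * (T p m)⁻¹ ∨ ∃ i < m, g = A p i}, fun m => ?_, ?_⟩⟩
  · have := fin_cl p m
    obtain ⟨f, h1, h2⟩ := fx_ne (k := k) (Subgroup.closure {g | ∃ i ≤ m, g = A p i})
    have h3 : ∀ i ≤ m, MonoidAlgebra.single (A p i) 1 * f = f :=
      fun i hi => h2 _ (Subgroup.subset_closure ⟨i, hi, rfl⟩)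
    refine (Submodule.ne_bot_iff _).mpr ⟨MonoidAlgebra.single (T p m) 1 * f, ?_, fun h => h1 ?_⟩
    · rintro g (rfl | ⟨i, hi, rfl⟩)
      · conv_rhs => rw [← h3 m le_rfl]
        simp [← mul_assoc, MonoidAlgebra.single_mul_single]
      · conv_rhs => rw [← h3 i hi.le]
        have : A p i * T p m = T p m * A p i :=
          Subtype.ext (Pi.mulSingle_commute hi.ne _ _).eq
        simp [← mul_assoc, MonoidAlgebra.single_mul_single, this]
    · have := congrArg (MonoidAlgebra.single (T p m)⁻¹ (1 : k) * ·) h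
      simpa [← mul_assoc, MonoidAlgebra.single_mul_single, ← MonoidAlgebra.one_def] using this
  · rw [iSupIndep_iff_finsetSum_eq_zero_imp_eq_zero]
    intro s v h1 h2 i
    induction i using Nat.strong_induction_on with
    | h i ih =>
      intro hi
      have h3 : MonoidAlgebra.single (A p i) 1 * v i = v i := by
        have h4 : ∀ j ∈ s.erase i, MonoidAlgebra.single (A p i) 1 * v j = v j := by
          intro j hj
          obtain ⟨h5, h6⟩ := Finset.mem_erase.mp hj
          rcases lt_or_gt_of_ne h5 with h7 | h7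
          · rw [ih j h7 h6, mul_zero]
          · exact h1 j h6 _ (Or.inr ⟨i, h7, rfl⟩)
        rw [← Finset.add_sum_erase _ _ hi, add_eq_zero_iff_eq_neg] at h2
        rw [h2, mul_neg, Finset.mul_sum, Finset.sum_congr rfl h4]
      refine fx_zero _ (inf_ord p i) _ ?_
      conv_lhs => rw [← h3]
      rw [← mul_assoc, MonoidAlgebra.single_mul_single, inv_mul_cancel_right, one_mul]
      exact h1 i hi _ (Or.inl rfl)

end Pool.Agent.Results.MP_529953_al.CharP
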